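import Pool.Agent.Q35.PX.StmS

/-!
Project PX (helper35), job PX-GENS: a generic symmetric matrix with prescribed support and rank.
-/

set_option autoImplicit false

namespace Pool.Agent.Q49.PX

open MvPolynomial Finset
open Pool.Agent.Q35.PX (IsMatch meetS S_GenS)

theorem mem_meetS {n : ℕ} {k : Type} [Field k] (z : Fin n → kˣ) (τ : kˣ) (U : Finset (Fin n))
    (x : Fin n × Fin n) :
    x ∈ meetS z τ U ↔ x.1 ≤ x.2 ∧ z x.1 * z x.2 = τ ∧ (x.1 ∈ U ∨ x.2 ∈ U) := by
  unfold meetS
  simp

section

variable {k : Type} [Field k] {n : ℕ} (z : Fin n → kˣ) (τ : kˣ) (U : Finset (Fin n))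

/-- the index set of the variables -/
abbrev PT : Type := {x : Fin n × Fin n // x ∈ meetS z τ U}

open scoped Classical in
/-- the generic matrix with entries in an algebra -/
noncomputable def AA {R : Type} [CommRing R] (c : PT z τ U → R) : Matrix (Fin n) (Fin n) R :=
  fun a b => if h : (a, b) ∈ meetS z τ U then c ⟨(a, b), h⟩
    else if h' : (b, a) ∈ meetS z τ U then c ⟨(b, a), h'⟩ else 0

theorem AA_map {R S : Type} [CommRing R] [CommRing S] (f : R →+* S) (c : PT z τ U → R) :
    (AA z τ U c).map f = AA z τ U (fun x => f (c x)) := by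
  ext a b
  simp only [Matrix.map_apply, AA]
  split_ifs <;> simp

theorem AA_symm {R : Type} [CommRing R] (c : PT z τ U → R) (a b : Fin n) :
    AA z τ U c b a = AA z τ U c a b := by
  rcases eq_or_ne a b with rfl | hab
  · rfl
  unfold AA
  by_cases h1 : (a, b) ∈ meetS z τ U
  · have h2 : (b, a) ∉ meetS z τ U := by
      intro h2
      rw [mem_meetS] at h1 h2
      exact hab (le_antisymm h1.1 h2.1)
    rw [dif_neg h2, dif_pos h1, dif_pos h1]
  · by_cases h2 : (b, a) ∈ meetS z τ U
    · rw [dif_pos h2, dif_neg h1, dif_pos h2]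
    · rw [dif_neg h2, dif_neg h1, dif_neg h1, dif_neg h2]

theorem AA_supp {R : Type} [CommRing R] (c : PT z τ U → R) (a b : Fin n) (h : z a * z b ≠ τ) :
    AA z τ U c a b = 0 := by
  unfold AA
  rw [dif_neg, dif_neg]
  · rw [mem_meetS]
    rintro ⟨-, h2, -⟩
    exact h (by rw [mul_comm]; exact h2)
  · rw [mem_meetS]
    rintro ⟨-, h2, -⟩
    exact h h2

theorem AA_mem {R : Type} [CommRing R] (c : PT z τ U → R) (x : PT z τ U) :
    AA z τ U c x.1.1 x.1.2 = c x := by
  unfold AA
  rw [dif_pos x.2]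

/-- the embedding -/
abbrev ee : U → Fin n := fun i => i.1

variable {U} in
/-- the evaluation with nonzero determinant -/
theorem det_ev (hU : IsMatch z τ U) :
    ∃ c : PT z τ U → k, ((AA z τ U c).submatrix (ee U) (ee U)).det ≠ 0 := by
  classical
  obtain ⟨σ, hσ⟩ := hU
  refine ⟨fun x => if x.1.1 ∈ U ∧ x.1.2 = σ x.1.1 then 1 else 0, ?_⟩
  obtain ⟨c, hc⟩ : ∃ c : PT z τ U → k, c = fun x =>
    if x.1.1 ∈ U ∧ x.1.2 = σ x.1.1 then 1 else 0 := ⟨_, rfl⟩
  rw [← hc]
  have hW : ∀ i j : U, AA z τ U c i.1 j.1 = if j.1 = σ i.1 then 1 else 0 := by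
    intro i j
    obtain ⟨hi1, hi2, hi3⟩ := hσ i.1 i.2
    obtain ⟨hj1, hj2, hj3⟩ := hσ j.1 j.2
    split_ifs with hj
    · rcases le_or_gt i.1 j.1 with h | h
      · have h1 : (i.1, j.1) ∈ meetS z τ U := by
          rw [mem_meetS]
          exact ⟨h, by rw [hj]; exact hi3, Or.inl i.2⟩
        unfold AA
        rw [dif_pos h1, hc]
        simp only
        rw [if_pos ⟨i.2, hj⟩]
      · have h1 : (j.1, i.1) ∈ meetS z τ U := by
          rw [mem_meetS]
          exact ⟨h.le, by rw [mul_comm, hj]; exact hi3, Or.inl j.2⟩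
        have h2 : (i.1, j.1) ∉ meetS z τ U := by
          rw [mem_meetS]
          rintro ⟨h3, -⟩
          exact absurd h (not_lt.2 h3)
        unfold AA
        rw [dif_neg h2, dif_pos h1, hc]
        simp only
        rw [if_pos ⟨j.2, by rw [hj, hi2]⟩]
    · unfold AA
      split_ifs with h1 h2
      · rw [hc]
        simp only
        rw [if_neg (fun h => hj h.2)]
      · rw [hc]
        simp only
        rw [if_neg]
        rintro ⟨-, h⟩
        apply hj
        rw [h, hj2]
      · rfl
  obtain ⟨W, hWd⟩ : ∃ W : Matrix U U k, W = (AA z τ U c).submatrix (ee U) (ee U) := ⟨_, rfl⟩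
  have hWe : ∀ i j : U, W i j = if j.1 = σ i.1 then 1 else 0 := by
    intro i j
    rw [hWd, Matrix.submatrix_apply, hW]
  rw [← hWd]
  refine Matrix.det_ne_zero_of_right_inverse (B := W) ?_
  ext i l
  rw [Matrix.mul_apply]
  simp only [hWe]
  obtain ⟨hi1, hi2, hi3⟩ := hσ i.1 i.2
  rw [Finset.sum_eq_single (⟨σ i.1, hi1⟩ : U)]
  · rw [if_pos rfl, one_mul]
    simp only
    rw [hi2]
    by_cases h : i = l
    · subst h
      rw [if_pos rfl, Matrix.one_apply_eq]
    · rw [if_neg (fun h' => h (Subtype.ext h'.symm)), Matrix.one_apply_ne h]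
  · intro j _ hj
    rw [if_neg (fun h => hj (Subtype.ext h)), zero_mul]
  · intro h
    exact absurd (mem_univ _) h

end

theorem genS : S_GenS := by
  intro k _ _ n z τ U hU
  obtain ⟨K, iF, iA, f, hf⟩ : ∃ (K : Type) (_ : Field K) (_ : Algebra k K)
      (f : MvPolynomial (PT z τ U) k →ₐ[k] K), Function.Injective f :=
    ⟨FractionRing (MvPolynomial (PT z τ U) k), inferInstance, inferInstance,
      IsScalarTower.toAlgHom k (MvPolynomial (PT z τ U) k) (FractionRing (MvPolynomial (PT z τ U) k)),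
      IsFractionRing.injective _ _⟩
  obtain ⟨A, hA⟩ : ∃ A : Matrix (Fin n) (Fin n) K, A = AA z τ U (fun x => f (X x)) := ⟨_, rfl⟩
  obtain ⟨e, he⟩ : ∃ e : U → Fin n, e = ee U := ⟨_, rfl⟩
  obtain ⟨B, hB⟩ : ∃ B : Matrix U U K, B = A.submatrix e e := ⟨_, rfl⟩
  have hdet : IsUnit B.det := by
    obtain ⟨c, hc⟩ := det_ev z τ hU
    have h1 : ((AA z τ U (fun x => (X x : MvPolynomial (PT z τ U) k))).submatrix (ee U) (ee U)).det ≠ 0 := by
      intro h
      apply hc
      have h2 := congrArg (MvPolynomial.eval c) h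
      rw [RingHom.map_det, map_zero] at h2
      rw [← h2]
      congr 1
      ext i j
      have h3 := congrFun (congrFun (AA_map z τ U (MvPolynomial.eval c) fun x => (X x : MvPolynomial (PT z τ U) k))
        (ee U i)) (ee U j)
      simp only [MvPolynomial.eval_X] at h3
      rw [Matrix.submatrix_apply, ← h3]
      rfl
    rw [isUnit_iff_ne_zero]
    intro h
    apply h1
    apply hf
    rw [map_zero, ← h, hB, hA, he]
    have h4 := RingHom.map_det f.toRingHom
      ((AA z τ U (fun x => (X x : MvPolynomial (PT z τ U) k))).submatrix (ee U) (ee U))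
    refine h4.trans ?_
    congr 1
    ext i j
    exact congrFun (congrFun (AA_map z τ U f.toRingHom fun x => (X x : MvPolynomial (PT z τ U) k))
      (ee U i)) (ee U j)
  have hAn : ∀ a b, A b a = A a b := by
    intro a b
    rw [hA]
    exact AA_symm z τ U _ a b
  obtain ⟨C, hC⟩ : ∃ C : Matrix (Fin n) U K, C = A.submatrix id e := ⟨_, rfl⟩
  obtain ⟨R, hR⟩ : ∃ R : Matrix U (Fin n) K, R = A.submatrix e id := ⟨_, rfl⟩
  obtain ⟨Y, hY⟩ : ∃ Y : Matrix (Fin n) (Fin n) K, Y = C * B⁻¹ * R := ⟨_, rfl⟩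
  have hBT : B.transpose = B := by
    ext i j
    rw [hB]
    simp only [Matrix.transpose_apply, Matrix.submatrix_apply]
    exact hAn _ _
  have hCT : C.transpose = R := by
    ext i j
    rw [hC, hR]
    simp only [Matrix.transpose_apply, Matrix.submatrix_apply]
    exact hAn _ _
  have hRT : R.transpose = C := by
    ext i j
    rw [hC, hR]
    simp only [Matrix.transpose_apply, Matrix.submatrix_apply]
    exact hAn _ _
  have hBi : (B⁻¹).transpose = B⁻¹ := by
    rw [Matrix.transpose_nonsing_inv, hBT]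
  have hYT : Y.transpose = Y := by
    rw [hY, Matrix.transpose_mul, Matrix.transpose_mul, hCT, hRT, hBi, Matrix.mul_assoc]
  have hYn : ∀ a b, Y b a = Y a b := fun a b => by
    have := congrFun (congrFun hYT a) b
    simpa using this
  -- the entries in rows and columns of U
  have hYr : ∀ i b, Y (e i) b = A (e i) b := by
    intro i b
    have h1 : (C.submatrix e id) = B := by
      rw [hC, hB]
      rfl
    have h2 : (Y.submatrix e id) = R := by
      have h3 : (Y.submatrix e id) = (C.submatrix e id) * B⁻¹ * R := by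
        rw [hY]
        ext i j
        simp [Matrix.mul_apply]
      rw [h3, h1, Matrix.mul_nonsing_inv B hdet, Matrix.one_mul]
    have h4 := congrFun (congrFun h2 i) b
    rw [hR] at h4
    simpa using h4
  have hYU : ∀ x : PT z τ U, Y x.1.1 x.1.2 = f (X x) := by
    intro x
    have h0 : A x.1.1 x.1.2 = f (X x) := by
      rw [hA]
      exact AA_mem z τ U _ x
    obtain ⟨-, -, h1⟩ := (mem_meetS z τ U x.1).1 x.2
    rcases h1 with h1 | h1
    · have hi : e ⟨x.1.1, h1⟩ = x.1.1 := by rw [he]
      rw [← h0, ← hi, hYr]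
    · have hi : e ⟨x.1.2, h1⟩ = x.1.2 := by rw [he]
      rw [← h0, hYn x.1.2 x.1.1, ← hi, hYr, hAn x.1.1 (e _)]
  refine ⟨K, iF, iA, Y, hYn, ?_, ?_, ?_⟩
  · -- support
    intro a b hab
    obtain ⟨ζ, hζ⟩ : ∃ ζ : Fin n → K, ζ = fun a => algebraMap k K (z a : k) := ⟨_, rfl⟩
    obtain ⟨t, ht⟩ : ∃ t : K, t = algebraMap k K (τ : k) := ⟨_, rfl⟩
    have hζ0 : ∀ a, ζ a ≠ 0 := by
      intro a
      rw [hζ]
      simp
    have ht0 : t ≠ 0 := by
      rw [ht]
      simp
    have hA2 : ∀ a b, ζ a * A a b * ζ b = t * A a b := by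
      intro a b
      by_cases h : z a * z b = τ
      · have h1 : ζ a * ζ b = t := by
          rw [hζ, ht, ← h]
          simp
        rw [← h1]
        ring
      · have h1 : A a b = 0 := by
          rw [hA]
          exact AA_supp z τ U _ a b h
        rw [h1]
        ring
    obtain ⟨D, hD⟩ : ∃ D : Matrix (Fin n) (Fin n) K, D = Matrix.diagonal ζ := ⟨_, rfl⟩
    obtain ⟨E, hE⟩ : ∃ E : Matrix U U K, E = Matrix.diagonal (fun i => ζ (e i)) := ⟨_, rfl⟩
    obtain ⟨E', hE'⟩ : ∃ E' : Matrix U U K, E' = Matrix.diagonal (fun i => (ζ (e i))⁻¹) := ⟨_, rfl⟩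
    have hEE : E * E' = 1 := by
      rw [hE, hE', Matrix.diagonal_mul_diagonal, ← Matrix.diagonal_one]
      congr 1
      ext i
      exact mul_inv_cancel₀ (hζ0 _)
    have hEE' : E' * E = 1 := by
      rw [hE, hE', Matrix.diagonal_mul_diagonal, ← Matrix.diagonal_one]
      congr 1
      ext i
      exact inv_mul_cancel₀ (hζ0 _)
    have h1 : D * C * E = t • C := by
      ext a i
      rw [hD, hE, Matrix.mul_diagonal, Matrix.diagonal_mul, Matrix.smul_apply, hC, smul_eq_mul]
      exact hA2 _ _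
    have h2 : E * R * D = t • R := by
      ext a i
      rw [hD, hE, Matrix.mul_diagonal, Matrix.diagonal_mul, Matrix.smul_apply, hR, smul_eq_mul]
      exact hA2 _ _
    have h3 : E * B * E = t • B := by
      ext a i
      rw [hE, Matrix.mul_diagonal, Matrix.diagonal_mul, Matrix.smul_apply, hB, smul_eq_mul]
      exact hA2 _ _
    have h4 : E' * B⁻¹ * E' = t⁻¹ • B⁻¹ := by
      have h5 : (t • B) * (E' * B⁻¹ * E') = 1 := by
        rw [← h3]
        calc E * B * E * (E' * B⁻¹ * E') = E * B * (E * E') * B⁻¹ * E' := by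
              simp only [Matrix.mul_assoc]
          _ = E * (B * B⁻¹) * E' := by rw [hEE]; simp only [Matrix.mul_assoc, Matrix.one_mul]
          _ = 1 := by rw [Matrix.mul_nonsing_inv B hdet, Matrix.mul_one, hEE]
      have h7 : (t⁻¹ • B⁻¹) * (t • B) = 1 := by
        rw [Matrix.smul_mul, Matrix.mul_smul, smul_smul, inv_mul_cancel₀ ht0, one_smul,
          Matrix.nonsing_inv_mul B hdet]
      calc E' * B⁻¹ * E' = (t⁻¹ • B⁻¹) * (t • B) * (E' * B⁻¹ * E') := by rw [h7, Matrix.one_mul]
        _ = (t⁻¹ • B⁻¹) * ((t • B) * (E' * B⁻¹ * E')) := by rw [Matrix.mul_assoc]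
        _ = _ := by rw [h5, Matrix.mul_one]
    have h5 : D * Y * D = t • Y := by
      have h6 : D * C = (t • C) * E' := by
        rw [← h1, Matrix.mul_assoc, hEE, Matrix.mul_one]
      have h7 : R * D = E' * (t • R) := by
        rw [← h2, ← Matrix.mul_assoc, ← Matrix.mul_assoc, hEE', Matrix.one_mul]
      calc D * Y * D = (D * C) * B⁻¹ * (R * D) := by
            rw [hY]
            simp only [Matrix.mul_assoc]
        _ = (t • C) * (E' * B⁻¹ * E') * (t • R) := by
            rw [h6, h7]
            simp only [Matrix.mul_assoc]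
        _ = t • Y := by
            rw [h4, hY]
            simp only [Matrix.smul_mul, Matrix.mul_smul, smul_smul]
            rw [inv_mul_cancel₀ ht0, mul_one]
    have h6 := congrFun (congrFun h5 a) b
    rw [hD, Matrix.mul_diagonal, Matrix.diagonal_mul, Matrix.smul_apply, smul_eq_mul] at h6
    have h7 : (ζ a * ζ b - t) * Y a b = 0 := by linear_combination h6
    rcases mul_eq_zero.1 h7 with h8 | h8
    · exfalso
      apply hab
      apply Units.ext
      apply (algebraMap k K).injective
      rw [Units.val_mul, map_mul]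
      rw [hζ, ht] at h8
      exact sub_eq_zero.1 h8
    · exact h8
  · rw [hY]
    refine (Matrix.rank_mul_le_right _ _).trans ?_
    refine (Matrix.rank_le_card_height _).trans ?_
    simp
  · have h1 : (fun x : {x // x ∈ meetS z τ U} => Y x.1.1 x.1.2) = f ∘ X := by
      funext x
      exact hYU x
    rw [h1]
    exact (MvPolynomial.algebraicIndependent_X (PT z τ U) k).map' hf

end Pool.Agent.Q49.PX
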