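import Mathlib
import Pool.Agent.Q35.PX.StmS

/-!
# Project PX: the job PX-MATS (matchings which meet many pairs)

We prove `Pool.Agent.Q35.PX.S_MatS`.
-/

set_option autoImplicit false

namespace Pool.Agent.Q49.PX.Mat

open Finset Pool.Agent.Q35.PX

variable {n : ℕ} {k : Type} [Field k]

open Classical in
/-- the indicator of the relation -/
noncomputable def ee (z : Fin n → kˣ) (τ : kˣ) (a b : Fin n) : ℕ := if z a * z b = τ then 1 else 0

lemma ee_comm (z : Fin n → kˣ) (τ : kˣ) (a b : Fin n) : ee z τ a b = ee z τ b a := by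
  unfold ee; rw [mul_comm]

/-- ordered pairs -/
noncomputable def OO (z : Fin n → kˣ) (τ : kˣ) (S : Finset (Fin n)) : ℕ :=
  ∑ a ∈ S, ∑ b ∈ S, ee z τ a b

/-- loops -/
noncomputable def LL (z : Fin n → kˣ) (τ : kˣ) (S : Finset (Fin n)) : ℕ :=
  ∑ a ∈ S, ee z τ a a

/-- degree -/
noncomputable def dd (z : Fin n → kˣ) (τ : kˣ) (S : Finset (Fin n)) (a : Fin n) : ℕ :=
  ∑ b ∈ S, ee z τ a b

variable (z : Fin n → kˣ) (τ : kˣ)

lemma OO_erase (S : Finset (Fin n)) (a : Fin n) (ha : a ∈ S) :
    OO z τ S + ee z τ a a = OO z τ (S.erase a) + 2 * dd z τ S a := by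
  unfold OO dd
  rw [← Finset.add_sum_erase S _ ha]
  have h1 : ∑ x ∈ S.erase a, ∑ b ∈ S, ee z τ x b
      = ∑ x ∈ S.erase a, ee z τ x a + ∑ x ∈ S.erase a, ∑ b ∈ S.erase a, ee z τ x b := by
    rw [← Finset.sum_add_distrib]
    refine Finset.sum_congr rfl fun x _ => ?_
    rw [← Finset.add_sum_erase S _ ha]
  have h2 : ∑ b ∈ S, ee z τ a b = ee z τ a a + ∑ x ∈ S.erase a, ee z τ x a := by
    rw [← Finset.add_sum_erase S _ ha]
    congr 1
    exact Finset.sum_congr rfl fun x _ => ee_comm z τ a x
  rw [h1, h2]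
  ring

lemma LL_erase (S : Finset (Fin n)) (a : Fin n) (ha : a ∈ S) :
    LL z τ S = ee z τ a a + LL z τ (S.erase a) := by
  unfold LL
  rw [Finset.add_sum_erase S (fun a => ee z τ a a) ha]

lemma FF_erase (S : Finset (Fin n)) (a : Fin n) (ha : a ∈ S) :
    OO z τ S + LL z τ S = OO z τ (S.erase a) + LL z τ (S.erase a) + 2 * dd z τ S a := by
  have h1 := OO_erase z τ S a ha
  have h2 := LL_erase z τ S a ha
  omega

lemma OO_le (S : Finset (Fin n)) (D : ℕ) (h : ∀ a ∈ S, dd z τ S a ≤ D) :
    OO z τ S ≤ S.card * D := by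
  unfold OO
  calc ∑ a ∈ S, ∑ b ∈ S, ee z τ a b ≤ ∑ _a ∈ S, D := Finset.sum_le_sum h
    _ = S.card * D := by simp

lemma dd_mono (S T : Finset (Fin n)) (h : S ⊆ T) (a : Fin n) : dd z τ S a ≤ dd z τ T a :=
  Finset.sum_le_sum_of_subset h

lemma ee_eq_one (a b : Fin n) (h : z a * z b = τ) : ee z τ a b = 1 := by
  unfold ee; rw [if_pos h]

lemma ee_eq_zero (a b : Fin n) (h : z a * z b ≠ τ) : ee z τ a b = 0 := by
  unfold ee; rw [if_neg h]

lemma dd_pos_iff (S : Finset (Fin n)) (a : Fin n) : 0 < dd z τ S a ↔ ∃ b ∈ S, z a * z b = τ := by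
  constructor
  · intro h
    by_contra hcon
    push Not at hcon
    have : dd z τ S a = 0 := Finset.sum_eq_zero fun b hb => ee_eq_zero z τ a b (hcon b hb)
    omega
  · rintro ⟨b, hb, hab⟩
    have h1 : ee z τ a b ≤ dd z τ S a :=
      Finset.single_le_sum (f := fun b => ee z τ a b) (fun _ _ => Nat.zero_le _) hb
    rw [ee_eq_one z τ a b hab] at h1
    omega

/-- the loops of the class of `c` -/
lemma LL_le_dd (S : Finset (Fin n)) (c : Fin n)
    (h : ∀ x ∈ S, z x * z x = τ → z x = z c) : LL z τ S ≤ dd z τ S c := by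
  unfold LL dd
  refine Finset.sum_le_sum fun x hx => ?_
  by_cases hl : z x * z x = τ
  · have := h x hx hl
    rw [ee_eq_one z τ x x hl, ee_eq_one z τ c x (by rw [← this]; exact hl)]
  · rw [ee_eq_zero z τ x x hl]
    exact Nat.zero_le _

lemma sq_two (u v w : kˣ) (hu : u * u = τ) (hv : v * v = τ) (hw : w * w = τ) (huv : v ≠ u) :
    w = u ∨ w = v := by
  have e1 : (u : k) * u = τ := by rw [← hu]; simp
  have e2 : (v : k) * v = τ := by rw [← hv]; simp
  have e3 : (w : k) * w = τ := by rw [← hw]; simp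
  have h1 : (v : k) = u ∨ (v : k) = -u := mul_self_eq_mul_self_iff.mp (by rw [e1, e2])
  have h2 : (w : k) = u ∨ (w : k) = -u := mul_self_eq_mul_self_iff.mp (by rw [e1, e3])
  rcases h1 with h1 | h1
  · exact absurd (Units.ext h1) huv
  rcases h2 with h2 | h2
  · exact Or.inl (Units.ext h2)
  · right
    exact Units.ext (by rw [h1, h2])

lemma LL_le_dd2 (S : Finset (Fin n)) (c c' : Fin n) (hc : z c * z c = τ) (hc' : z c' * z c' = τ)
    (hcc : z c' ≠ z c) : LL z τ S ≤ dd z τ S c + dd z τ S c' := by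
  unfold LL dd
  rw [← Finset.sum_add_distrib]
  refine Finset.sum_le_sum fun x _ => ?_
  by_cases hl : z x * z x = τ
  · rcases sq_two τ (z c) (z c') (z x) hc hc' hl hcc with h | h
    · rw [ee_eq_one z τ x x hl, ee_eq_one z τ c x (by rw [← h]; exact hl)]
      omega
    · rw [ee_eq_one z τ x x hl, ee_eq_one z τ c' x (by rw [← h]; exact hl)]
      omega
  · rw [ee_eq_zero z τ x x hl]
    exact Nat.zero_le _

lemma isMatch_empty : IsMatch z τ (∅ : Finset (Fin n)) := ⟨id, by simp⟩

lemma isMatch_insert (U : Finset (Fin n)) (hU : IsMatch z τ U) (a : Fin n) (ha : a ∉ U)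
    (hl : z a * z a = τ) : IsMatch z τ (insert a U) := by
  obtain ⟨σ, hσ⟩ := hU
  classical
  refine ⟨fun x => if x = a then a else σ x, fun x hx => ?_⟩
  rcases Finset.mem_insert.mp hx with rfl | hx
  · simp [hl]
  · have hxa : x ≠ a := fun h => ha (h ▸ hx)
    obtain ⟨h1, h2, h3⟩ := hσ x hx
    have hsa : σ x ≠ a := fun h => ha (h ▸ h1)
    simp only [hxa, if_false, hsa]
    exact ⟨Finset.mem_insert_of_mem h1, h2, h3⟩

lemma isMatch_insert2 (U : Finset (Fin n)) (hU : IsMatch z τ U) (a b : Fin n) (ha : a ∉ U)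
    (hb : b ∉ U) (hab : a ≠ b) (hl : z a * z b = τ) : IsMatch z τ (insert a (insert b U)) := by
  obtain ⟨σ, hσ⟩ := hU
  classical
  refine ⟨fun x => if x = a then b else if x = b then a else σ x, fun x hx => ?_⟩
  rcases Finset.mem_insert.mp hx with rfl | hx
  · simp [hl, hab.symm]
  rcases Finset.mem_insert.mp hx with rfl | hx
  · have : z x * z a = τ := by rw [mul_comm]; exact hl
    simp [this, hab.symm]
  · have hxa : x ≠ a := fun h => ha (h ▸ hx)
    have hxb : x ≠ b := fun h => hb (h ▸ hx)
    obtain ⟨h1, h2, h3⟩ := hσ x hx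
    have hsa : σ x ≠ a := fun h => ha (h ▸ h1)
    have hsb : σ x ≠ b := fun h => hb (h ▸ h1)
    simp only [hxa, hxb, if_false, hsa, hsb]
    exact ⟨Finset.mem_insert_of_mem (Finset.mem_insert_of_mem h1), h2, h3⟩

lemma arith1 (N r F O O' D : ℕ) (h2 : 2 ≤ r) (hN : r ≤ N) (hD : 1 ≤ D) (hO : O ≤ N * D)
    (hO' : O + 1 = O' + 2 * D)
    (hI : (N - 1) * F ≤ ((N - 1) - (r - 1) + 1) * O') : N * F ≤ (N - r + 1) * O := by
  obtain ⟨m, rfl⟩ : ∃ m, N = m + 1 := ⟨N - 1, by omega⟩
  obtain ⟨q, hq⟩ : ∃ q, m + 1 = r + q := ⟨m + 1 - r, by omega⟩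
  have e1 : m + 1 - 1 - (r - 1) + 1 = q + 1 := by omega
  have e2 : m + 1 - r + 1 = q + 1 := by omega
  rw [e1] at hI
  rw [e2]
  have e3 : m + 1 - 1 = m := by omega
  rw [e3] at hI
  have hm : 1 ≤ m := by omega
  -- (m+1) O' ≤ m O
  have h5 : (m + 1) * O' ≤ m * O := by nlinarith
  have h6 : m * ((m + 1) * F) ≤ m * ((q + 1) * O) := by
    calc m * ((m + 1) * F) = (m + 1) * (m * F) := by ring
      _ ≤ (m + 1) * ((q + 1) * O') := Nat.mul_le_mul_left _ hI
      _ = (q + 1) * ((m + 1) * O') := by ring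
      _ ≤ (q + 1) * (m * O) := Nat.mul_le_mul_left _ h5
      _ = m * ((q + 1) * O) := by ring
  exact Nat.le_of_mul_le_mul_left h6 (by omega)

lemma arith2 (N r F O O' D : ℕ) (h3 : 3 ≤ r) (hN : r ≤ N) (hO : O ≤ N * D)
    (hO' : O' + 2 * D ≤ O)
    (hI : (N - 2) * F ≤ ((N - 2) - (r - 2) + 1) * O') : N * F ≤ (N - r + 1) * O := by
  obtain ⟨m, rfl⟩ : ∃ m, N = m + 2 := ⟨N - 2, by omega⟩
  obtain ⟨q, hq⟩ : ∃ q, m + 2 = r + q := ⟨m + 2 - r, by omega⟩
  have e1 : m + 2 - 2 - (r - 2) + 1 = q + 1 := by omega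
  have e2 : m + 2 - r + 1 = q + 1 := by omega
  rw [e1] at hI
  rw [e2]
  have e3 : m + 2 - 2 = m := by omega
  rw [e3] at hI
  have hm : 1 ≤ m := by omega
  have h5 : (m + 2) * O' ≤ m * O := by nlinarith
  have h6 : m * ((m + 2) * F) ≤ m * ((q + 1) * O) := by
    calc m * ((m + 2) * F) = (m + 2) * (m * F) := by ring
      _ ≤ (m + 2) * ((q + 1) * O') := Nat.mul_le_mul_left _ hI
      _ = (q + 1) * ((m + 2) * O') := by ring
      _ ≤ (q + 1) * (m * O) := Nat.mul_le_mul_left _ h5
      _ = m * ((q + 1) * O) := by ring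
  exact Nat.le_of_mul_le_mul_left h6 (by omega)

lemma OO_mono (S T : Finset (Fin n)) (h : S ⊆ T) : OO z τ S ≤ OO z τ T := by
  unfold OO
  calc ∑ a ∈ S, ∑ b ∈ S, ee z τ a b ≤ ∑ a ∈ S, ∑ b ∈ T, ee z τ a b :=
        Finset.sum_le_sum fun a _ => Finset.sum_le_sum_of_subset h
    _ ≤ ∑ a ∈ T, ∑ b ∈ T, ee z τ a b := Finset.sum_le_sum_of_subset h

lemma LL_mono (S T : Finset (Fin n)) (h : S ⊆ T) : LL z τ S ≤ LL z τ T :=
  Finset.sum_le_sum_of_subset h

lemma claim : ∀ (r : ℕ) (S : Finset (Fin n)), 1 ≤ r → r ≤ S.card →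
    ∃ U ⊆ S, IsMatch z τ U ∧ U.card ≤ r ∧
      S.card * (OO z τ (S \ U) + LL z τ (S \ U)) ≤ (S.card - r + 1) * OO z τ S := by
  classical
  intro r
  induction r using Nat.strong_induction_on with
  | _ r ih =>
  intro S hr hrS
  have hne : S.Nonempty := by
    rw [← Finset.card_pos]; omega
  obtain ⟨a, haS, hmax⟩ := Finset.exists_max_image S (fun x => dd z τ S x) hne
  have hO : OO z τ S ≤ S.card * dd z τ S a := OO_le z τ S _ hmax
  -- degree zero
  by_cases hD0 : dd z τ S a = 0
  · refine ⟨∅, by simp, isMatch_empty z τ, by simp, ?_⟩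
    have h1 : OO z τ S = 0 := by rw [hD0] at hO; simpa using hO
    have h2 : LL z τ S = 0 := by
      unfold LL
      refine Finset.sum_eq_zero fun x hx => ?_
      refine ee_eq_zero z τ x x fun hl => ?_
      have h3 := (dd_pos_iff z τ S x).mpr ⟨x, hx, hl⟩
      have h4 : dd z τ S x ≤ dd z τ S a := hmax x hx
      omega
    simp [h1, h2]
  have hD : 1 ≤ dd z τ S a := by omega
  -- the case r = 1
  rcases Nat.lt_or_ge r 2 with hr2 | hr2
  · have hr1 : r = 1 := by omega
    subst hr1
    have e1 : S.card - 1 + 1 = S.card := by omega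
    rw [e1]
    by_cases hL : ∃ x ∈ S, z x * z x = τ
    · have hLne : (S.filter fun x => z x * z x = τ).Nonempty := by
        obtain ⟨x, hx, hl⟩ := hL
        exact ⟨x, Finset.mem_filter.mpr ⟨hx, hl⟩⟩
      obtain ⟨c, hc, hcmax⟩ := Finset.exists_max_image _ (fun x => dd z τ S x) hLne
      obtain ⟨hcS, hcl⟩ := Finset.mem_filter.mp hc
      have hLL : LL z τ S ≤ 2 * dd z τ S c := by
        by_cases h : ∃ x ∈ S, z x * z x = τ ∧ z x ≠ z c
        · obtain ⟨x, hx, hxl, hxc⟩ := h
          have h1 := LL_le_dd2 z τ S c x hcl hxl hxc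
          have h2 : dd z τ S x ≤ dd z τ S c := hcmax x (Finset.mem_filter.mpr ⟨hx, hxl⟩)
          omega
        · push Not at h
          have h1 := LL_le_dd z τ S c (fun x hx hl => h x hx hl)
          omega
      refine ⟨{c}, by simpa using hcS, ?_, by simp, ?_⟩
      · have := isMatch_insert z τ ∅ (isMatch_empty z τ) c (by simp) hcl
        simpa using this
      · rw [← Finset.erase_eq]
        have h1 := FF_erase z τ S c hcS
        exact Nat.mul_le_mul_left _ (by omega)
    · push Not at hL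
      refine ⟨∅, by simp, isMatch_empty z τ, by simp, ?_⟩
      have h2 : LL z τ S = 0 := by
        unfold LL
        exact Finset.sum_eq_zero fun x hx => ee_eq_zero z τ x x (hL x hx)
      simp [h2]
  -- the loop case
  by_cases hal : z a * z a = τ
  · have hcard : (S.erase a).card = S.card - 1 := Finset.card_erase_of_mem haS
    obtain ⟨U, hUS, hUm, hUc, hI⟩ := ih (r - 1) (by omega) (S.erase a) (by omega) (by omega)
    have haU : a ∉ U := fun h => by
      have := hUS h
      simp at this
    refine ⟨insert a U, ?_, isMatch_insert z τ U hUm a haU hal, ?_, ?_⟩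
    · intro x hx
      rcases Finset.mem_insert.mp hx with rfl | hx
      · exact haS
      · exact Finset.mem_of_mem_erase (hUS hx)
    · rw [Finset.card_insert_of_notMem haU]; omega
    · have hset : S \ insert a U = S.erase a \ U := by
        ext x
        simp only [Finset.mem_sdiff, Finset.mem_insert, Finset.mem_erase]
        tauto
      rw [hset]
      rw [hcard] at hI
      have h1 := OO_erase z τ S a haS
      rw [ee_eq_one z τ a a hal] at h1
      exact arith1 S.card r _ (OO z τ S) (OO z τ (S.erase a)) (dd z τ S a) hr2 hrS hD hO h1 hI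
  -- a is not a loop
  obtain ⟨b, hbS, hab⟩ := (dd_pos_iff z τ S a).mp (by omega)
  have hne' : a ≠ b := by
    rintro rfl
    exact hal hab
  have hbSa : b ∈ S.erase a := Finset.mem_erase.mpr ⟨hne'.symm, hbS⟩
  have h1 := OO_erase z τ S a haS
  rw [ee_eq_zero z τ a a hal] at h1
  rcases Nat.lt_or_ge r 3 with hr3 | hr3
  · -- r = 2
    have hr2' : r = 2 := by omega
    subst hr2'
    by_cases hLD : LL z τ S ≤ dd z τ S a
    · -- the pair {a, b}
      refine ⟨{a, b}, ?_, ?_, ?_, ?_⟩
      · intro x hx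
        simp only [Finset.mem_insert, Finset.mem_singleton] at hx
        rcases hx with rfl | rfl
        · exact haS
        · exact hbS
      · have := isMatch_insert2 z τ ∅ (isMatch_empty z τ) a b (by simp) (by simp) hne' hab
        simpa using this
      · exact Finset.card_le_two
      · have hsub : S \ {a, b} ⊆ S.erase a := by
          intro x hx
          simp only [Finset.mem_sdiff, Finset.mem_insert, Finset.mem_singleton, not_or] at hx
          exact Finset.mem_erase.mpr ⟨hx.2.1, hx.1⟩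
        have h2 := OO_mono z τ _ _ hsub
        have h3 := LL_mono z τ _ _ hsub
        have h4 := FF_erase z τ S a haS
        have h5 : OO z τ (S \ {a, b}) + LL z τ (S \ {a, b}) + dd z τ S a ≤ OO z τ S := by omega
        obtain ⟨m, hm⟩ : ∃ m, S.card = m + 2 := ⟨S.card - 2, by omega⟩
        rw [hm] at hO ⊢
        have e2 : m + 2 - 2 + 1 = m + 1 := by omega
        rw [e2]
        nlinarith
    · -- two loops in different classes
      push Not at hLD
      have hex : ∃ c ∈ S, z c * z c = τ := by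
        by_contra hcon
        push Not at hcon
        have : LL z τ S = 0 := by
          unfold LL
          exact Finset.sum_eq_zero fun x hx => ee_eq_zero z τ x x (hcon x hx)
        omega
      obtain ⟨c, hcS, hcl⟩ := hex
      have hex2 : ∃ x ∈ S, z x * z x = τ ∧ z x ≠ z c := by
        by_contra hcon
        push Not at hcon
        have h2 := LL_le_dd z τ S c (fun x hx hl => hcon x hx hl)
        have h3 : dd z τ S c ≤ dd z τ S a := hmax c hcS
        omega
      obtain ⟨x, hxS, hxl, hxc⟩ := hex2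
      have hcx : c ≠ x := by
        rintro rfl
        exact hxc rfl
      have hxSc : x ∈ S.erase c := Finset.mem_erase.mpr ⟨hcx.symm, hxS⟩
      refine ⟨{c, x}, ?_, ?_, ?_, ?_⟩
      · intro y hy
        simp only [Finset.mem_insert, Finset.mem_singleton] at hy
        rcases hy with rfl | rfl
        · exact hcS
        · exact hxS
      · have h0 := isMatch_insert z τ ∅ (isMatch_empty z τ) x (by simp) hxl
        have := isMatch_insert z τ _ h0 c (by simpa using hcx) hcl
        simpa using this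
      · exact Finset.card_le_two
      · have hset : S \ {c, x} = (S.erase c).erase x := by
          ext y
          simp only [Finset.mem_sdiff, Finset.mem_insert, Finset.mem_singleton, not_or,
            Finset.mem_erase]
          tauto
        rw [hset]
        have h2 := FF_erase z τ S c hcS
        have h3 := FF_erase z τ (S.erase c) x hxSc
        have h4 : dd z τ (S.erase c) x = dd z τ S x := by
          unfold dd
          rw [← Finset.add_sum_erase S _ hcS]
          rw [ee_eq_zero z τ x c (fun h => hxc ?_), zero_add]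
          have : z x * z c = z c * z c := by rw [h, hcl]
          exact mul_right_cancel this
        have h5 := LL_le_dd2 z τ S c x hcl hxl hxc
        rw [h4] at h3
        have h6 : OO z τ ((S.erase c).erase x) + LL z τ ((S.erase c).erase x) + dd z τ S a
            ≤ OO z τ S := by omega
        obtain ⟨m, hm⟩ : ∃ m, S.card = m + 2 := ⟨S.card - 2, by omega⟩
        rw [hm] at hO ⊢
        have e2 : m + 2 - 2 + 1 = m + 1 := by omega
        rw [e2]
        nlinarith
  · -- r ≥ 3
    have hcard : ((S.erase a).erase b).card = S.card - 2 := by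
      rw [Finset.card_erase_of_mem hbSa, Finset.card_erase_of_mem haS]; omega
    obtain ⟨U, hUS, hUm, hUc, hI⟩ :=
      ih (r - 2) (by omega) ((S.erase a).erase b) (by omega) (by omega)
    have haU : a ∉ U := fun h => by
      have := hUS h
      simp at this
    have hbU : b ∉ U := fun h => by
      have := hUS h
      simp at this
    refine ⟨insert a (insert b U), ?_, isMatch_insert2 z τ U hUm a b haU hbU hne' hab, ?_, ?_⟩
    · intro x hx
      rcases Finset.mem_insert.mp hx with rfl | hx
      · exact haS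
      rcases Finset.mem_insert.mp hx with rfl | hx
      · exact hbS
      · exact Finset.mem_of_mem_erase (Finset.mem_of_mem_erase (hUS hx))
    · have haU' : a ∉ insert b U := by
        simp only [Finset.mem_insert, not_or]
        exact ⟨hne', haU⟩
      rw [Finset.card_insert_of_notMem haU', Finset.card_insert_of_notMem hbU]; omega
    · have hset : S \ insert a (insert b U) = (S.erase a).erase b \ U := by
        ext x
        simp only [Finset.mem_sdiff, Finset.mem_insert, Finset.mem_erase]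
        tauto
      rw [hset]
      rw [hcard] at hI
      have h2 : OO z τ ((S.erase a).erase b) ≤ OO z τ (S.erase a) :=
        OO_mono z τ _ _ (Finset.erase_subset _ _)
      exact arith2 S.card r _ (OO z τ S) (OO z τ ((S.erase a).erase b)) (dd z τ S a) hr3 hrS hO
        (by omega) hI

lemma avoid_card (U : Finset (Fin n)) :
    2 * (avoidS z τ U).card = OO z τ (univ \ U) + LL z τ (univ \ U) := by
  classical
  set T : Finset (Fin n) := univ \ U with hT
  have hA : (avoidS z τ U).card = ∑ a ∈ T, ∑ b ∈ T, (if a ≤ b then ee z τ a b else 0) := by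
    have h1 : avoidS z τ U = (T ×ˢ T).filter fun x => x.1 ≤ x.2 ∧ z x.1 * z x.2 = τ := by
      ext x
      simp only [avoidS, Finset.mem_filter, Finset.mem_univ, true_and, Finset.mem_product, hT,
        Finset.mem_sdiff]
      tauto
    rw [h1, Finset.card_filter, Finset.sum_product]
    refine Finset.sum_congr rfl fun a _ => Finset.sum_congr rfl fun b _ => ?_
    unfold ee
    by_cases h : a ≤ b
    · simp [h]
    · simp [h]
  have hB : (avoidS z τ U).card = ∑ a ∈ T, ∑ b ∈ T, (if b ≤ a then ee z τ a b else 0) := by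
    rw [hA, Finset.sum_comm]
    refine Finset.sum_congr rfl fun a _ => Finset.sum_congr rfl fun b _ => ?_
    rw [ee_comm]
  have hL : LL z τ T = ∑ a ∈ T, ∑ b ∈ T, (if a = b then ee z τ a b else 0) := by
    unfold LL
    refine Finset.sum_congr rfl fun a ha => ?_
    rw [Finset.sum_ite_eq]
    simp [ha]
  rw [two_mul]
  nth_rewrite 1 [hA]
  rw [hB, hL]
  unfold OO
  rw [← Finset.sum_add_distrib, ← Finset.sum_add_distrib]
  refine Finset.sum_congr rfl fun a _ => ?_
  rw [← Finset.sum_add_distrib, ← Finset.sum_add_distrib]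
  refine Finset.sum_congr rfl fun b _ => ?_
  rcases lt_trichotomy a b with h | h | h
  · rw [if_pos h.le, if_neg (not_le.mpr h), if_neg h.ne]
  · subst h
    simp
  · rw [if_neg (not_le.mpr h), if_pos h.le, if_neg h.ne', add_comm]

lemma ord_card : (ordS z τ).card = OO z τ univ := by
  classical
  unfold OO ordS
  rw [Finset.card_filter, ← Finset.univ_product_univ, Finset.sum_product]
  refine Finset.sum_congr rfl fun a _ => Finset.sum_congr rfl fun b _ => ?_
  unfold ee
  rfl

end Pool.Agent.Q49.PX.Mat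

namespace Pool.Agent.Q49.PX

open Finset Pool.Agent.Q35.PX

/-- Job PX-MATS. -/
theorem matS : S_MatS := by
  intro k _ n r t z τ hr hrn h
  obtain ⟨U, -, hUm, hUc, hI⟩ := Mat.claim z τ r univ hr (by simpa using hrn)
  have h1 := h U hUm hUc
  have h2 := Mat.avoid_card z τ U
  rw [Mat.ord_card]
  rw [← h2] at hI
  simp only [Finset.card_univ, Fintype.card_fin] at hI
  calc 2 * n * t = n * (2 * t) := by ring
    _ ≤ n * (2 * (avoidS z τ U).card) := Nat.mul_le_mul_left _ (Nat.mul_le_mul_left _ h1)
    _ ≤ _ := hI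

end Pool.Agent.Q49.PX
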